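import Pool.Agent.Y166.LT.Stm

/-! Project LT, job KAP3: functions regular outside the ramification divisor are constant. -/

set_option autoImplicit false
set_option linter.unusedSectionVars false

namespace Pool.Agent.Y536.LT.KAP3

open MvPolynomial Pool.Agent.Y166.GM Pool.Agent.Y166.SM Pool.Agent.Y198.MC Pool.Agent.Y166.LT

/-- Homogenisation. -/
theorem homog {k σ τ : Type} [Field k] (W : σ → MvPolynomial τ k) (W0 : MvPolynomial τ k)
    (P : MvPolynomial σ k) :
    ∃ (d : ℕ) (Ph : MvPolynomial τ k), ∀ (B : Type) [Field B] [Algebra k B] (s : τ → B),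
      aeval s W0 ≠ 0 →
      aeval s Ph = (aeval s W0) ^ d * aeval (fun j => aeval s (W j) / aeval s W0) P := by
  induction P using MvPolynomial.induction_on with
  | C a => exact ⟨0, C a, fun B _ _ s _ => by simp⟩
  | add p q hp hq =>
    obtain ⟨d1, P1, h1⟩ := hp
    obtain ⟨d2, P2, h2⟩ := hq
    refine ⟨d1 + d2, W0 ^ d2 * P1 + W0 ^ d1 * P2, fun B _ _ s hs => ?_⟩
    rw [map_add, map_mul, map_mul, map_pow, map_pow, h1 B s hs, h2 B s hs, map_add]; ring
  | mul_X p j hp =>
    obtain ⟨d, P1, h1⟩ := hp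
    refine ⟨d + 1, P1 * W j, fun B _ _ s hs => ?_⟩
    rw [map_mul, h1 B s hs, map_mul, aeval_X]
    field_simp
    ring

theorem map_wS {A B : Type} [CommRing A] [CommRing B] (f : A →+* B) {r : ℕ} (t : Sy r → A)
    (j : Co (r + 2)) : f (wS t j) = wS (fun i => f (t i)) j := by
  simp [wS, ptY, wdg, vec, quad, tu, tv, tx, tq]

theorem map_RR {A B : Type} [CommRing A] [CommRing B] (f : A →+* B) {r : ℕ} (t : Sy r → A) :
    f (RR t) = RR (fun i => f (t i)) := by
  simp [RR, tx, tq, map_ofNat]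

section
variable {k : Type} [Field k]

/-- A basis of the plane in which the pair of forms has normal form. -/
theorem key {N : ℕ} (u v : Fin N → k) (ξ q1 q2 l R : k) (hR : ξ ^ 2 - 2 * q1 * ξ + q2 = R)
    (hR0 : R ≠ 0) (j : Co N) :
    ptY (fun i => l * (u i + ξ * v i))
      (fun i => l ^ 2 * (v i + ((q1 - ξ) / R) * (u i + ξ * v i)))
      ![1, 0] ![l ^ 2 * ((1 - (q1 - ξ) ^ 2 / R) / R), 0, 1] j =
      l ^ 8 / R * ptY u v ![1, ξ] ![1, q1, q2] j := by
  obtain ⟨⟨a, b⟩, c, d, e⟩ := j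
  have hq : q2 = R - ξ ^ 2 + 2 * q1 * ξ := by rw [← hR]; ring
  subst hq
  simp only [ptY, wdg, vec, quad, Matrix.cons_val_zero, Matrix.cons_val_one, Matrix.cons_val]
  field_simp
  ring

/-- The point of the parameter space above a point of the chart. -/
def sl {r : ℕ} (c : Ch r → k) (b κ : k) (l : k) : Sy r → k :=
  Sum.elim (fun i => l * (U0 c i + c (.inr 0) * V0 c i))
    (Sum.elim (fun i => l ^ 2 * (V0 c i + b * (U0 c i + c (.inr 0) * V0 c i)))
      (Sum.elim ![1, 0] ![l ^ 2 * κ, 0, 1]))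

theorem RR_sl {r : ℕ} (c : Ch r → k) (b κ l : k) : RR (sl c b κ l) = 1 := by
  simp [RR, tx, tq, sl]

theorem coordY {r : ℕ} (c : Ch r → k) (j : Ch r) :
    ptY (U0 c) (V0 c) ![1, c (.inr 0)] ![1, c (.inr 1), c (.inr 2)] (rrY r j) = c j := by
  rcases j with ⟨i, j⟩ | j
  · fin_cases j <;> simp [ptY, wdg, vec, quad, U0, V0, rrY]
  · fin_cases j <;> simp [ptY, wdg, vec, quad, U0, V0, rrY]

theorem coordY0 {r : ℕ} (c : Ch r → k) :
    ptY (U0 c) (V0 c) ![1, c (.inr 0)] ![1, c (.inr 1), c (.inr 2)] (j0 r) = 1 := by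
  simp [ptY, wdg, vec, quad, U0, V0, j0]

/-- The family of points of the parameter space above a point of the chart. -/
noncomputable def slP {r : ℕ} (c : Ch r → k) (b κ : k) : Sy r → Polynomial k :=
  Sum.elim (fun i => Polynomial.X * Polynomial.C (U0 c i + c (.inr 0) * V0 c i))
    (Sum.elim (fun i => Polynomial.X ^ 2 *
        Polynomial.C (V0 c i + b * (U0 c i + c (.inr 0) * V0 c i)))
      (Sum.elim ![1, 0] ![Polynomial.X ^ 2 * Polynomial.C κ, 0, 1]))

theorem slP_eval {r : ℕ} (c : Ch r → k) (b κ l : k) (i : Sy r) :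
    Polynomial.aeval l (slP c b κ i) = sl c b κ l i := by
  rcases i with i | i | i | i
  · simp [slP, sl]
  · simp [slP, sl]
  · fin_cases i <;> simp [slP, sl]
  · have h1 : Polynomial.aeval l (Polynomial.X ^ 2 * Polynomial.C κ) = l ^ 2 * κ := by
      rw [map_mul, map_pow, Polynomial.aeval_X, Polynomial.aeval_C]; rfl
    fin_cases i
    · exact h1
    · simp [slP, sl]
    · simp [slP, sl]

theorem slP_zero {r : ℕ} (c : Ch r → k) (b κ : k) (A : MvPolynomial (Sy r) k) :
    Polynomial.aeval (0 : k) (aeval (slP c b κ) A) =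
      aeval (Sum.elim 0 (Sum.elim 0 (Sum.elim ![1, 0] ![0, 0, 1])) : Sy r → k) A := by
  rw [MvPolynomial.comp_aeval_apply]
  congr 2
  funext i
  rw [slP_eval]
  rcases i with i | i | i | i
  · simp [sl]
  · simp [sl]
  · fin_cases i <;> simp [sl]
  · fin_cases i <;> simp [sl]

end

theorem done : S_KAP3 := by
  intro k K L _ _ _ _ _ _ _ _ _ r Y x t hC hE φ ⟨M, A, hA⟩
  have aeW : ∀ (B : Type) [Field B] [Algebra k B] (s : Sy r → B) (j : Co (r + 2)),
      aeval s (wS (X : Sy r → MvPolynomial (Sy r) k) j) = wS s j := by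
    intro B _ _ s j
    have := map_wS (aeval s : MvPolynomial (Sy r) k →ₐ[k] B).toRingHom
      (X : Sy r → MvPolynomial (Sy r) k) j
    simpa using this
  have aeR : ∀ (B : Type) [Field B] [Algebra k B] (s : Sy r → B),
      aeval s (RR (X : Sy r → MvPolynomial (Sy r) k)) = RR s := by
    intro B _ _ s
    have := map_RR (aeval s : MvPolynomial (Sy r) k →ₐ[k] B).toRingHom
      (X : Sy r → MvPolynomial (Sy r) k)
    simpa using this
  obtain ⟨P, Q, hQ0, hφ⟩ : ∃ P Q : MvPolynomial (Ch r) k, aeval Y Q ≠ 0 ∧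
      φ = aeval Y P / aeval Y Q := by
    have h : φ ∈ IntermediateField.adjoin k (Set.range Y) := by rw [hC.top]; trivial
    obtain ⟨P, Q, h⟩ := (IntermediateField.mem_adjoin_range_iff k Y φ).1 h
    by_cases hQ : aeval Y Q = 0
    · exact ⟨0, 1, by simp, by simp [h, hQ]⟩
    · exact ⟨P, Q, hQ, h⟩
  obtain ⟨d1, Ph, hPh⟩ := homog (fun j => wS (X : Sy r → MvPolynomial (Sy r) k) (rrY r j))
    (wS X (j0 r)) P
  obtain ⟨d2, Qh, hQh⟩ := homog (fun j => wS (X : Sy r → MvPolynomial (Sy r) k) (rrY r j))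
    (wS X (j0 r)) Q
  have hinj : Function.Injective (aeval t : MvPolynomial (Sy r) k →ₐ[k] L) := hE.ind
  have hW0 : wS (X : Sy r → MvPolynomial (Sy r) k) (j0 r) ≠ 0 := by
    intro h
    have h1 := aeW k (Sum.elim (U0 (0 : Ch r → k)) (Sum.elim (V0 (0 : Ch r → k))
      (Sum.elim ![1, 0] ![1, 0, 0]))) (j0 r)
    rw [h, map_zero] at h1
    simp [wS, ptY, wdg, vec, quad, U0, V0, j0, tu, tv, tx, tq] at h1
  have hW0t : aeval t (wS (X : Sy r → MvPolynomial (Sy r) k) (j0 r)) ≠ 0 := fun h =>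
    hW0 (hinj (by rw [h, map_zero]))
  have hy : ∀ F : MvPolynomial (Ch r) k,
      aeval (fun j => aeval t (wS (X : Sy r → MvPolynomial (Sy r) k) (rrY r j)) /
        aeval t (wS (X : Sy r → MvPolynomial (Sy r) k) (j0 r))) F =
      algebraMap K L (aeval Y F) := by
    intro F
    rw [← MvPolynomial.aeval_algebraMap_apply]
    congr 2
    funext j
    simp only [aeW]
    exact (hE.coord j).symm
  have hid : wS (X : Sy r → MvPolynomial (Sy r) k) (j0 r) ^ d2 * Ph * RR X ^ M =
      wS (X : Sy r → MvPolynomial (Sy r) k) (j0 r) ^ d1 * A * Qh := by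
    apply hinj
    simp only [map_mul, map_pow]
    rw [hPh L t hW0t, hQh L t hW0t, hy, hy, aeR, ← hA, hφ, map_div₀]
    have : algebraMap K L (aeval Y Q) ≠ 0 := (map_ne_zero (algebraMap K L)).2 hQ0
    field_simp
  have hpt : ∀ s : Sy r → k, wS s (j0 r) ≠ 0 → ∀ c : Ch r → k,
      (∀ j, wS s (rrY r j) / wS s (j0 r) = c j) →
      aeval c P * RR s ^ M = aeval s A * aeval c Q := by
    intro s hs c hc
    have h1 := congrArg (aeval s) hid
    simp only [map_mul, map_pow] at h1
    have hs' : aeval s (wS (X : Sy r → MvPolynomial (Sy r) k) (j0 r)) ≠ 0 := by rwa [aeW]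
    rw [hPh k s hs', hQh k s hs', aeR] at h1
    simp only [aeW, hc] at h1
    have h2 : wS s (j0 r) ^ d1 ≠ 0 := pow_ne_zero _ hs
    have h3 : wS s (j0 r) ^ d2 ≠ 0 := pow_ne_zero _ hs
    have h4 : (wS s (j0 r) ^ d1 * wS s (j0 r) ^ d2) * (aeval c P * RR s ^ M) =
        (wS s (j0 r) ^ d1 * wS s (j0 r) ^ d2) * (aeval s A * aeval c Q) := by
      linear_combination h1
    exact mul_left_cancel₀ (mul_ne_zero h2 h3) h4
  have hinf : Infinite k := CharZero.infinite k
  set e : k := aeval (Sum.elim 0 (Sum.elim 0 (Sum.elim ![1, 0] ![0, 0, 1])) : Sy r → k) A with he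
  have hmain : ∀ c : Ch r → k, aeval c (rho k r) ≠ 0 → aeval c P = e * aeval c Q := by
    intro c hR
    set R : k := aeval c (rho k r) with hRd
    have hR' : c (.inr 0) ^ 2 - 2 * c (.inr 1) * c (.inr 0) + c (.inr 2) = R := by
      rw [hRd]; simp [rho]
    set b : k := (c (.inr 1) - c (.inr 0)) / R
    set κ : k := (1 - (c (.inr 1) - c (.inr 0)) ^ 2 / R) / R
    have hk : ∀ (l : k) (j : Co (r + 2)), wS (sl c b κ l) j = l ^ 8 / R *
        ptY (U0 c) (V0 c) ![1, c (.inr 0)] ![1, c (.inr 1), c (.inr 2)] j := fun l j =>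
      key (U0 c) (V0 c) (c (.inr 0)) (c (.inr 1)) (c (.inr 2)) l R hR' hR j
    have hl : ∀ l : k, l ≠ 0 → aeval c P = aeval (sl c b κ l) A * aeval c Q := by
      intro l hl0
      have hlR : l ^ 8 / R ≠ 0 := div_ne_zero (pow_ne_zero _ hl0) hR
      have h := hpt (sl c b κ l) (by rw [hk, coordY0, mul_one]; exact hlR) c (fun j => by
        rw [hk, hk, coordY0, coordY, mul_one]; field_simp)
      rwa [RR_sl, one_pow, mul_one] at h
    set G : Polynomial k := aeval (slP c b κ) A * Polynomial.C (aeval c Q) -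
      Polynomial.C (aeval c P) with hG
    have hG0 : G = 0 := by
      apply Polynomial.eq_zero_of_infinite_isRoot
      refine Set.Infinite.mono ?_ (Set.finite_singleton (0 : k)).infinite_compl
      intro l hl0
      have hl0 : l ≠ 0 := by simpa using hl0
      show Polynomial.eval l G = 0
      have h1 : Polynomial.eval l (aeval (slP c b κ) A) = aeval (sl c b κ l) A := by
        have h2 := MvPolynomial.comp_aeval_apply (slP c b κ) (Polynomial.aeval l) A
        rw [Polynomial.coe_aeval_eq_eval] at h2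
        rw [h2]
        congr 2
        funext i
        have := slP_eval c b κ l i
        rwa [Polynomial.coe_aeval_eq_eval] at this
      rw [hG, Polynomial.eval_sub, Polynomial.eval_mul, Polynomial.eval_C, Polynomial.eval_C, h1,
        hl l hl0, sub_self]
    have h0 : Polynomial.eval 0 G = 0 := by rw [hG0, Polynomial.eval_zero]
    have h1 := slP_zero c b κ A
    rw [Polynomial.coe_aeval_eq_eval] at h1
    rw [hG, Polynomial.eval_sub, Polynomial.eval_mul, Polynomial.eval_C, Polynomial.eval_C, h1,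
      ← he, sub_eq_zero] at h0
    exact h0.symm
  have hprod : (P - C e * Q) * rho k r = 0 := by
    apply MvPolynomial.funext
    intro c
    rw [map_mul, map_zero, mul_eq_zero]
    by_cases hR : eval c (rho k r) = 0
    · exact Or.inr hR
    · left
      have h := hmain c (by rwa [MvPolynomial.aeval_eq_eval])
      rw [MvPolynomial.aeval_eq_eval] at h
      simp [h]
  have hrho : rho k r ≠ 0 := by
    intro h
    have h1 : aeval (Sum.elim 0 ![0, 0, 1] : Ch r → k) (rho k r) = 1 := by simp [rho]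
    rw [h, map_zero] at h1
    exact zero_ne_one h1
  have hPQ : P = C e * Q := by
    rcases mul_eq_zero.1 hprod with h | h
    · exact sub_eq_zero.1 h
    · exact absurd h hrho
  refine ⟨e, ?_⟩
  rw [hφ, hPQ, map_mul, aeval_C, mul_div_assoc, div_self hQ0, mul_one]

end Pool.Agent.Y536.LT.KAP3
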